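import Pool.Agent.Q25.PLP.Stm

/-!
# Points, lines and planes: decomposition into the contributions of the points (step DEC)
-/

set_option autoImplicit false

open Finset Pool.Agent.Helper123.PLP Pool.Agent.Q25.PLP

namespace Pool.Agent.Q224.PLPDEC

theorem max_sub (a b : ℝ) : a - b = max (a - b) 0 - max (b - a) 0 := by
  rcases le_total a b with h | h
  · rw [max_eq_right (by linarith), max_eq_left (by linarith)]
    ring
  · rw [max_eq_left (by linarith), max_eq_right (by linarith)]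
    ring

theorem max_sq (a b : ℝ) : (a - b) ^ 2 = max (a - b) 0 ^ 2 + max (b - a) 0 ^ 2 := by
  rcases le_total a b with h | h
  · rw [max_eq_right (by linarith), max_eq_left (by linarith)]
    ring
  · rw [max_eq_left (by linarith), max_eq_right (by linarith)]
    ring

variable {P : Type} [DecidableEq P]

theorem lam (V : Finset P) (L : Finset (Finset P)) (γ : P → ℝ) (X : Finset P → P) (hLS : IsLS V L)
    (hlow : IsLow L γ X) :
    LamX V L γ X = ∑ x ∈ V, (NN L X x : ℝ) * bet V γ x - ∑ x ∈ V, eta L γ X x := by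
  have hXV : ∀ l ∈ L, X l ∈ V := fun l hl => hLS.sub l hl (hlow l hl).1
  have h1 : LamX V L γ X = ∑ l ∈ L, ∑ z ∈ V \ l, max (γ (X l) - γ z) 0 -
      ∑ l ∈ L, ∑ z ∈ V \ l, max (γ z - γ (X l)) 0 := by
    unfold LamX
    rw [← Finset.sum_sub_distrib]
    apply Finset.sum_congr rfl
    intro l _
    rw [← Finset.sum_sub_distrib]
    apply Finset.sum_congr rfl
    intro z _
    exact max_sub _ _
  have h2 : ∑ l ∈ L, ∑ z ∈ V \ l, max (γ (X l) - γ z) 0 = ∑ x ∈ V, (NN L X x : ℝ) * bet V γ x := by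
    have e1 : ∀ l ∈ L, ∑ z ∈ V \ l, max (γ (X l) - γ z) 0 = bet V γ (X l) := by
      intro l hl
      unfold bet
      apply Finset.sum_subset Finset.sdiff_subset
      intro z hz hz'
      have hzl : z ∈ l := by
        by_contra h
        exact hz' (Finset.mem_sdiff.2 ⟨hz, h⟩)
      exact max_eq_right (sub_nonpos.2 ((hlow l hl).2 z hzl))
    rw [Finset.sum_congr rfl e1, ← Finset.sum_fiberwise_of_maps_to hXV]
    apply Finset.sum_congr rfl
    intro x _
    have e2 : ∀ l ∈ L.filter (fun l => X l = x), bet V γ (X l) = bet V γ x := by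
      intro l hl
      rw [(Finset.mem_filter.1 hl).2]
    rw [Finset.sum_congr rfl e2, Finset.sum_const, nsmul_eq_mul]
    rfl
  have h3 : ∑ l ∈ L, ∑ z ∈ V \ l, max (γ z - γ (X l)) 0 = ∑ x ∈ V, eta L γ X x := by
    unfold eta
    apply Finset.sum_comm'
    intro l z
    rw [Finset.mem_sdiff, Finset.mem_filter]
    tauto
  rw [h1, h2, h3]

theorem qq (V : Finset P) (L : Finset (Finset P)) (γ : P → ℝ) (hLS : IsLS V L) :
    QQ V L γ = ∑ x ∈ V, Qx V L γ x := by
  have h1 : ∑ x ∈ V, Qx V L γ x = ∑ l ∈ L, ((V.card : ℝ) - l.card) * ∑ x ∈ l, ∑ z ∈ l, (max (γ x - γ z) 0) ^ 2 := by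
    unfold Qx thr
    have e1 : ∑ x ∈ V, ∑ l ∈ L.filter (fun l => x ∈ l), ((V.card : ℝ) - l.card) * ∑ z ∈ l, (max (γ x - γ z) 0) ^ 2 =
        ∑ l ∈ L, ∑ x ∈ l, ((V.card : ℝ) - l.card) * ∑ z ∈ l, (max (γ x - γ z) 0) ^ 2 := by
      apply Finset.sum_comm'
      intro x l
      rw [Finset.mem_filter]
      constructor
      · rintro ⟨-, h1, h2⟩
        exact ⟨h2, h1⟩
      · rintro ⟨h1, h2⟩
        exact ⟨hLS.sub l h2 h1, h2, h1⟩
    rw [e1]
    apply Finset.sum_congr rfl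
    intro l _
    rw [Finset.mul_sum]
  have h2 : ∀ l : Finset P, ∑ x ∈ l, ∑ z ∈ l, (γ x - γ z) ^ 2 = 2 * ∑ x ∈ l, ∑ z ∈ l, (max (γ x - γ z) 0) ^ 2 := by
    intro l
    have e1 : ∑ x ∈ l, ∑ z ∈ l, (γ x - γ z) ^ 2 = ∑ x ∈ l, ∑ z ∈ l, (max (γ x - γ z) 0) ^ 2 +
        ∑ x ∈ l, ∑ z ∈ l, (max (γ z - γ x) 0) ^ 2 := by
      rw [← Finset.sum_add_distrib]
      apply Finset.sum_congr rfl
      intro x _
      rw [← Finset.sum_add_distrib]
      apply Finset.sum_congr rfl
      intro z _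
      exact max_sq _ _
    rw [e1, two_mul]
    congr 1
    exact Finset.sum_comm
  unfold QQ
  rw [h1, Finset.mul_sum]
  apply Finset.sum_congr rfl
  intro l _
  rw [h2]
  ring

theorem t_DEC : S_DEC := by
  intro P _ V L γ X hLS hlow
  rw [lam V L γ X hLS hlow, qq V L γ hLS]
  unfold coll trm
  rw [Finset.sum_add_distrib, Finset.sum_add_distrib, Finset.sum_sub_distrib, ← Finset.mul_sum]
  have h1 : ∑ x ∈ V, 2 * (NN L X x : ℝ) * bet V γ x = 2 * ∑ x ∈ V, (NN L X x : ℝ) * bet V γ x := by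
    rw [Finset.mul_sum]
    apply Finset.sum_congr rfl
    intro x _
    ring
  rw [h1]
  ring

end Pool.Agent.Q224.PLPDEC
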