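import Pool.Agent.Q25.PLP.Stm

/-!
# Points, lines and planes: the lowest points contribute at least 2 (step LOW)
-/

set_option autoImplicit false

open Finset Pool.Agent.Helper123.PLP Pool.Agent.Q25.PLP

namespace Pool.Agent.Q224.PLPLOW

theorem t_LOW (hB1 : S_B1) : S_LOW := by
  intro P _ V L γ X hLS hlow hne
  obtain ⟨x0, hx0, y0, hy0, hxy⟩ := hne
  set C := V.filter (fun x => ∀ y ∈ V, γ x ≤ γ y) with hC
  have hCV : C ⊆ V := Finset.filter_subset _ _
  have hCne : C.Nonempty := by
    obtain ⟨m, hm, hmin⟩ := Finset.exists_min_image V γ ⟨x0, hx0⟩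
    exact ⟨m, Finset.mem_filter.2 ⟨hm, hmin⟩⟩
  have hCV' : C ≠ V := by
    intro h
    apply hxy
    have h1 : x0 ∈ C := by rw [h]; exact hx0
    have h2 : y0 ∈ C := by rw [h]; exact hy0
    exact le_antisymm ((Finset.mem_filter.1 h1).2 y0 hy0) ((Finset.mem_filter.1 h2).2 x0 hx0)
  have hB := hB1 P V L hLS C hCV hCne hCV'
  have hXV : ∀ l ∈ L, X l ∈ V := fun l hl => hLS.sub l hl (hlow l hl).1
  have htrm : ∀ x ∈ C, trm V L γ X x = (NN L X x : ℝ) * ((NN L X x : ℝ) - 1) := by
    intro x hx
    have hx' := (Finset.mem_filter.1 hx).2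
    have h1 : bet V γ x = 0 := by
      unfold bet
      apply Finset.sum_eq_zero
      intro z hz
      exact max_eq_right (sub_nonpos.2 (hx' z hz))
    have h2 : eta L γ X x = 0 := by
      unfold eta
      apply Finset.sum_eq_zero
      intro l hl
      exact max_eq_right (sub_nonpos.2 (hx' _ (hXV l (Finset.mem_filter.1 hl).1)))
    have h3 : Qx V L γ x = 0 := by
      unfold Qx
      apply Finset.sum_eq_zero
      intro l hl
      have h4 : ∑ z ∈ l, (max (γ x - γ z) 0) ^ 2 = 0 := by
        apply Finset.sum_eq_zero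
        intro z hz
        rw [max_eq_right (sub_nonpos.2 (hx' z (hLS.sub l (Finset.mem_filter.1 hl).1 hz)))]
        norm_num
      rw [h4, mul_zero]
    unfold trm
    rw [h1, h2, h3]
    ring
  have hmee : (mee L C).card = ∑ x ∈ C, NN L X x := by
    have h1 : mee L C = L.filter (fun l => X l ∈ C) := by
      unfold mee
      apply Finset.filter_congr
      intro l hl
      constructor
      · rintro ⟨z, hz⟩
        rw [Finset.mem_inter] at hz
        rw [hC, Finset.mem_filter]
        refine ⟨hXV l hl, fun y hy => ?_⟩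
        exact ((hlow l hl).2 z hz.1).trans ((Finset.mem_filter.1 hz.2).2 y hy)
      · intro h
        exact ⟨X l, Finset.mem_inter.2 ⟨(hlow l hl).1, h⟩⟩
    have h0 : Set.MapsTo X (L.filter (fun l => X l ∈ C) : Finset (Finset P)) (C : Set P) := by
      intro l hl
      exact Finset.mem_coe.2 (Finset.mem_filter.1 (Finset.mem_coe.1 hl)).2
    rw [h1, Finset.card_eq_sum_card_fiberwise h0]
    apply Finset.sum_congr rfl
    intro x hx
    unfold NN
    congr 1
    rw [Finset.filter_filter]
    apply Finset.filter_congr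
    intro l _
    constructor
    · exact fun h => h.2
    · intro h
      exact ⟨by rw [h]; exact hx, h⟩
  rw [Finset.sum_congr rfl htrm]
  have h1 : ∀ x ∈ C, 2 * ((NN L X x : ℝ) - 1) ≤ (NN L X x : ℝ) * ((NN L X x : ℝ) - 1) := by
    intro x _
    rcases Nat.lt_or_ge (NN L X x) 2 with h | h
    · interval_cases (NN L X x) <;> norm_num
    · have : (2 : ℝ) ≤ (NN L X x : ℝ) := by exact_mod_cast h
      nlinarith
  refine le_trans ?_ (Finset.sum_le_sum h1)
  rw [← Finset.mul_sum, Finset.sum_sub_distrib, Finset.sum_const, nsmul_eq_mul, mul_one]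
  have h2 : ∑ x ∈ C, (NN L X x : ℝ) = ((mee L C).card : ℝ) := by
    rw [hmee]
    push_cast
    rfl
  rw [h2]
  have h3 : ((C.card : ℝ)) + 1 ≤ ((mee L C).card : ℝ) := by exact_mod_cast hB
  linarith

end Pool.Agent.Q224.PLPLOW
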