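import Pool.Agent.Q25.PLP.Stm

/-!
# Points, lines and planes: a line plus a point (step NP)
-/

set_option autoImplicit false

open Finset Pool.Agent.Helper123.PLP Pool.Agent.Q25.PLP

namespace Pool.Agent.Q224.PLPNP

theorem t_NP : S_NP := by
  intro P _ V L hLS x l0 hl0 hx hV γ X hlow
  have hpair : ∀ l ∈ L, ∀ z ∈ l0, x ∈ l → z ∈ l → l = {x, z} := by
    intro l hl z hz hxl hzl
    have hxz : x ≠ z := fun h => hx (h ▸ hz)
    apply Finset.Subset.antisymm
    · intro w hw
      rw [Finset.mem_insert, Finset.mem_singleton]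
      by_cases hwx : w = x
      · exact Or.inl hwx
      · right
        by_contra hwz
        have hwV := hLS.sub l hl hw
        rw [hV, Finset.mem_insert] at hwV
        have hw0 : w ∈ l0 := hwV.resolve_left hwx
        have := hLS.uniq l hl l0 hl0 w z hwz hw hzl hw0 hz
        rw [this] at hxl
        exact hx hxl
    · intro w hw
      rw [Finset.mem_insert, Finset.mem_singleton] at hw
      rcases hw with rfl | rfl
      · exact hxl
      · exact hzl
  have hxV : x ∈ V := by rw [hV]; exact Finset.mem_insert_self _ _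
  have hzV : ∀ z ∈ l0, z ∈ V := by
    intro z hz
    rw [hV]
    exact Finset.mem_insert_of_mem hz
  have hpL : ∀ z ∈ l0, ({x, z} : Finset P) ∈ L := by
    intro z hz
    have hxz : x ≠ z := fun h => hx (h ▸ hz)
    obtain ⟨l, hl, hxl, hzl⟩ := hLS.ex x hxV z (hzV z hz) hxz
    rw [← hpair l hl z hz hxl hzl]
    exact hl
  have hL : L = insert l0 (l0.image (fun z => ({x, z} : Finset P))) := by
    ext l
    rw [Finset.mem_insert, Finset.mem_image]
    constructor
    · intro hl
      by_cases hxl : x ∈ l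
      · right
        have h2 := hLS.two_le l hl
        obtain ⟨z, hz, hzx⟩ := Finset.exists_mem_ne (by omega : 1 < l.card) x
        have hzV' := hLS.sub l hl hz
        rw [hV, Finset.mem_insert] at hzV'
        have hz0 := hzV'.resolve_left hzx
        exact ⟨z, hz0, (hpair l hl z hz0 hxl hz).symm⟩
      · left
        have h2 := hLS.two_le l hl
        obtain ⟨y, hy, z, hz, hyz⟩ := Finset.one_lt_card.1 (by omega : 1 < l.card)
        have hsub : ∀ w ∈ l, w ∈ l0 := by
          intro w hw
          have hwV := hLS.sub l hl hw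
          rw [hV, Finset.mem_insert] at hwV
          exact hwV.resolve_left (fun h => hxl (h ▸ hw))
        exact hLS.uniq l hl l0 hl0 y z hyz hy hz (hsub y hy) (hsub z hz)
    · rintro (rfl | ⟨z, hz, rfl⟩)
      · exact hl0
      · exact hpL z hz
  have hnot : l0 ∉ l0.image (fun z => ({x, z} : Finset P)) := by
    rw [Finset.mem_image]
    rintro ⟨z, -, h⟩
    apply hx
    rw [← h]
    exact Finset.mem_insert_self _ _
  have hinj : Set.InjOn (fun z => ({x, z} : Finset P)) l0 := by
    intro z hz w hw h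
    have hzx : z ≠ x := fun h => hx (h ▸ hz)
    have h1 : z ∈ ({x, w} : Finset P) := by
      have h2 : z ∈ ({x, z} : Finset P) := Finset.mem_insert_of_mem (Finset.mem_singleton_self z)
      have h3 : ({x, z} : Finset P) = {x, w} := h
      rw [h3] at h2
      exact h2
    rw [Finset.mem_insert, Finset.mem_singleton] at h1
    exact h1.resolve_left hzx
  have hsum : LamX V L γ X = (γ (X l0) - γ x) +
      ∑ z ∈ l0, ∑ w ∈ l0.erase z, (γ (X {x, z}) - γ w) := by
    unfold LamX
    rw [hL, Finset.sum_insert hnot, Finset.sum_image hinj]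
    congr 1
    · have h1 : V \ l0 = {x} := by
        rw [hV]
        ext w
        rw [Finset.mem_sdiff, Finset.mem_insert, Finset.mem_singleton]
        constructor
        · rintro ⟨h1 | h1, h2⟩
          · exact h1
          · exact absurd h1 h2
        · intro h
          exact ⟨Or.inl h, by rw [h]; exact hx⟩
      rw [h1, Finset.sum_singleton]
    · apply Finset.sum_congr rfl
      intro z hz
      have h1 : V \ {x, z} = l0.erase z := by
        rw [hV]
        ext w
        rw [Finset.mem_sdiff, Finset.mem_insert, Finset.mem_insert, Finset.mem_singleton, Finset.mem_erase]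
        constructor
        · rintro ⟨h1 | h1, h2⟩
          · exact absurd (Or.inl h1) h2
          · exact ⟨fun h => h2 (Or.inr h), h1⟩
        · rintro ⟨h1, h2⟩
          refine ⟨Or.inr h2, ?_⟩
          rintro (h | h)
          · exact hx (h ▸ h2)
          · exact h1 h
      rw [h1]
  have hin : ∀ z ∈ l0, ∑ w ∈ l0.erase z, (γ (X {x, z}) - γ w) =
      ((l0.card : ℝ) - 1) * γ (X {x, z}) - (∑ w ∈ l0, γ w - γ z) := by
    intro z hz
    rw [Finset.sum_sub_distrib, Finset.sum_const, nsmul_eq_mul, Finset.card_erase_of_mem hz,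
      Nat.cast_sub (Finset.card_pos.2 ⟨z, hz⟩), Nat.cast_one, Finset.sum_erase_eq_sub hz]
  have hsum2 : LamX V L γ X = (γ (X l0) - γ x) + ((l0.card : ℝ) - 1) * ∑ z ∈ l0, (γ (X {x, z}) - γ z) := by
    rw [hsum, Finset.sum_congr rfl hin, Finset.sum_sub_distrib, Finset.sum_sub_distrib, Finset.sum_sub_distrib,
      Finset.sum_const, nsmul_eq_mul, ← Finset.mul_sum]
    ring
  have hm2 : (2 : ℝ) ≤ l0.card := by exact_mod_cast hLS.two_le l0 hl0
  have ha : ∀ z ∈ l0, γ (X {x, z}) ≤ γ x ∧ γ (X {x, z}) ≤ γ z := by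
    intro z hz
    have h1 := (hlow _ (hpL z hz)).2
    exact ⟨h1 x (Finset.mem_insert_self _ _), h1 z (Finset.mem_insert_of_mem (Finset.mem_singleton_self z))⟩
  have hmu : ∀ z ∈ l0, γ (X l0) ≤ γ z := (hlow l0 hl0).2
  rw [hsum2]
  rcases le_or_gt (γ (X l0)) (γ x) with h | h
  · have h1 : ∑ z ∈ l0, (γ (X {x, z}) - γ z) ≤ 0 := by
      apply Finset.sum_nonpos
      intro z hz
      linarith [(ha z hz).2]
    nlinarith
  · have h1 : ∑ z ∈ l0, (γ (X {x, z}) - γ z) ≤ ∑ z ∈ l0, (γ x - γ (X l0)) := by
      apply Finset.sum_le_sum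
      intro z hz
      linarith [(ha z hz).1, hmu z hz]
    rw [Finset.sum_const, nsmul_eq_mul] at h1
    have h2 : ((l0.card : ℝ) - 1) * ∑ z ∈ l0, (γ (X {x, z}) - γ z) ≤
        ((l0.card : ℝ) - 1) * (l0.card * (γ x - γ (X l0))) := mul_le_mul_of_nonneg_left h1 (by linarith)
    have h3 : 1 ≤ ((l0.card : ℝ) - 1) * l0.card := by nlinarith
    nlinarith

end Pool.Agent.Q224.PLPNP
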