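import Pool.Agent.Q25.PLP.Stm

/-!
# Points, lines and planes: double counting near a special line (step TC)
-/

set_option autoImplicit false

open Finset Pool.Agent.Helper123.PLP Pool.Agent.Q25.PLP

namespace Pool.Agent.Q224.PLPTC

variable {P : Type} [DecidableEq P]

/-- the lines other than `M` which meet `M` in a point other than `x` -/
def BB (L : Finset (Finset P)) (M : Finset P) (x : P) : Finset (Finset P) :=
  (M.erase x).biUnion (fun z => (thr L z).erase M)

theorem mem_thr {L : Finset (Finset P)} {z : P} {l : Finset P} : l ∈ thr L z ↔ l ∈ L ∧ z ∈ l := by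
  unfold thr
  rw [Finset.mem_filter]

theorem mem_BB {L : Finset (Finset P)} {M : Finset P} {x : P} {l : Finset P} :
    l ∈ BB L M x ↔ l ∈ L ∧ l ≠ M ∧ ∃ z ∈ M, z ≠ x ∧ z ∈ l := by
  unfold BB
  rw [Finset.mem_biUnion]
  constructor
  · rintro ⟨z, hz, hl⟩
    rw [Finset.mem_erase] at hz hl
    rw [mem_thr] at hl
    exact ⟨hl.2.1, hl.1, z, hz.2, hz.1, hl.2.2⟩
  · rintro ⟨h1, h2, z, h3, h4, h5⟩
    exact ⟨z, Finset.mem_erase.2 ⟨h4, h3⟩, Finset.mem_erase.2 ⟨h2, mem_thr.2 ⟨h1, h5⟩⟩⟩

theorem card_BB {V : Finset P} {L : Finset (Finset P)} (hLS : IsLS V L) {M : Finset P} {x : P} (hM : M ∈ L)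
    (hx : x ∈ M) (h : ∀ z ∈ M.erase x, (thr L z).card = M.card) : (BB L M x).card = (M.card - 1) ^ 2 := by
  unfold BB
  rw [Finset.card_biUnion]
  · have h1 : ∀ z ∈ M.erase x, ((thr L z).erase M).card = M.card - 1 := by
      intro z hz
      rw [Finset.card_erase_of_mem (mem_thr.2 ⟨hM, (Finset.mem_erase.1 hz).2⟩), h z hz]
    rw [Finset.sum_congr rfl h1, Finset.sum_const, Finset.card_erase_of_mem hx, smul_eq_mul, sq]
  · intro z hz w hw hzw
    show Disjoint ((thr L z).erase M) ((thr L w).erase M)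
    rw [Finset.disjoint_left]
    intro l hl hl'
    rw [Finset.mem_erase, mem_thr] at hl hl'
    exact hl.1 (hLS.uniq l hl.2.1 M hM z w hzw hl.2.2 hl'.2.2 (Finset.mem_erase.1 hz).2 (Finset.mem_erase.1 hw).2)

theorem not_mem_BB {V : Finset P} {L : Finset (Finset P)} (hLS : IsLS V L) {M : Finset P} {x : P} (hM : M ∈ L)
    (hx : x ∈ M) {l : Finset P} (hl : l ∈ BB L M x) : x ∉ l := by
  rw [mem_BB] at hl
  obtain ⟨h1, h2, z, h3, h4, h5⟩ := hl
  intro hxl
  exact h2 (hLS.uniq l h1 M hM z x h4 h5 hxl h3 hx)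

/-- every point other than `x` is on at least `|M| - 1` of these lines -/
theorem deg {V : Finset P} {L : Finset (Finset P)} (hLS : IsLS V L) {M : Finset P} {x : P} (hM : M ∈ L)
    (hx : x ∈ M) (h : ∀ z ∈ M.erase x, (thr L z).card = M.card) (w : P) (hw : w ∈ V) (hwx : w ≠ x) :
    M.card - 1 ≤ ((BB L M x).filter (fun l => w ∈ l)).card := by
  by_cases hwM : w ∈ M
  · have hw' : w ∈ M.erase x := Finset.mem_erase.2 ⟨hwx, hwM⟩
    rw [← h w hw', ← Finset.card_erase_of_mem (mem_thr.2 ⟨hM, hwM⟩)]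
    apply Finset.card_le_card
    intro l hl
    rw [Finset.mem_erase, mem_thr] at hl
    rw [Finset.mem_filter, mem_BB]
    exact ⟨⟨hl.2.1, hl.1, w, hwM, hwx, hl.2.2⟩, hl.2.2⟩
  · have key : ∀ z : P, ∃ l : Finset P, z ∈ M.erase x → l ∈ L ∧ w ∈ l ∧ z ∈ l := by
      intro z
      by_cases hz : z ∈ M.erase x
      · have hzM := (Finset.mem_erase.1 hz).2
        have hne : w ≠ z := fun e => hwM (e ▸ hzM)
        obtain ⟨l, hl, h1, h2⟩ := hLS.ex w hw z (hLS.sub M hM hzM) hne
        exact ⟨l, fun _ => ⟨hl, h1, h2⟩⟩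
      · exact ⟨∅, fun hh => absurd hh hz⟩
    choose j hj using key
    rw [← Finset.card_erase_of_mem hx]
    apply Finset.card_le_card_of_injOn j
    · intro z hz
      have hz' := Finset.mem_coe.1 hz
      obtain ⟨h1, h2, h3⟩ := hj z hz'
      rw [Finset.mem_coe, Finset.mem_filter, mem_BB]
      refine ⟨⟨h1, ?_, z, (Finset.mem_erase.1 hz').2, (Finset.mem_erase.1 hz').1, h3⟩, h2⟩
      intro e
      rw [e] at h2
      exact hwM h2
    · intro z hz z' hz' e
      have hz1 := Finset.mem_coe.1 hz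
      have hz1' := Finset.mem_coe.1 hz'
      obtain ⟨h1, h2, h3⟩ := hj z hz1
      obtain ⟨h1', h2', h3'⟩ := hj z' hz1'
      by_contra hne
      rw [← e] at h3'
      have := hLS.uniq (j z) h1 M hM z z' hne h3 h3' (Finset.mem_erase.1 hz1).2 (Finset.mem_erase.1 hz1').2
      rw [this] at h2
      exact hwM h2

theorem part1 {V : Finset P} {L : Finset (Finset P)} (hLS : IsLS V L) {M : Finset P} {x : P} (hM : M ∈ L)
    (hx : x ∈ M) (h : ∀ z ∈ M.erase x, (thr L z).card = M.card) (l : Finset P) (hl : l ∈ L) (hxl : x ∈ l) :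
    l.card ≤ M.card := by
  by_cases hlM : l = M
  · rw [hlM]
  have h2 := hLS.two_le M hM
  obtain ⟨z, hz, hzx⟩ := Finset.exists_mem_ne (by omega : 1 < M.card) x
  have hz' : z ∈ M.erase x := Finset.mem_erase.2 ⟨hzx, hz⟩
  have hzl : z ∉ l := fun hh => hlM (hLS.uniq l hl M hM z x hzx hh hxl hz hx)
  have hzV : z ∈ V := hLS.sub M hM hz
  have key : ∀ w : P, ∃ j : Finset P, w ∈ l.erase x → j ∈ L ∧ z ∈ j ∧ w ∈ j := by
    intro w
    by_cases hw : w ∈ l.erase x
    · have hwl := (Finset.mem_erase.1 hw).2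
      have hne : z ≠ w := fun e => hzl (e ▸ hwl)
      obtain ⟨j, hj, h1, h2⟩ := hLS.ex z hzV w (hLS.sub l hl hwl) hne
      exact ⟨j, fun _ => ⟨hj, h1, h2⟩⟩
    · exact ⟨∅, fun hh => absurd hh hw⟩
  choose j hj using key
  have h3 : (l.erase x).card ≤ ((thr L z).erase M).card := by
    apply Finset.card_le_card_of_injOn j
    · intro w hw
      have hw1 := Finset.mem_coe.1 hw
      obtain ⟨h1, h2, h3⟩ := hj w hw1
      rw [Finset.mem_coe, Finset.mem_erase, mem_thr]
      refine ⟨?_, h1, h2⟩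
      intro e
      rw [e] at h3
      exact hlM (hLS.uniq l hl M hM w x (Finset.mem_erase.1 hw1).1 (Finset.mem_erase.1 hw1).2 hxl h3 hx)
    · intro w hw w' hw' e
      have hw1 := Finset.mem_coe.1 hw
      have hw1' := Finset.mem_coe.1 hw'
      obtain ⟨h1, h2, h3⟩ := hj w hw1
      obtain ⟨h1', h2', h3'⟩ := hj w' hw1'
      by_contra hne
      rw [← e] at h3'
      have := hLS.uniq (j w) h1 l hl w w' hne h3 h3' (Finset.mem_erase.1 hw1).2 (Finset.mem_erase.1 hw1').2
      rw [this] at h2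
      exact hzl h2
  rw [Finset.card_erase_of_mem hxl, Finset.card_erase_of_mem (mem_thr.2 ⟨hM, hz⟩), h z hz'] at h3
  omega

/-- the number of incidences of the points of a set with the lines of a family -/
theorem inc_comm (S : Finset P) (B : Finset (Finset P)) :
    ∑ w ∈ S, (B.filter (fun l => w ∈ l)).card = ∑ l ∈ B, (S ∩ l).card := by
  have h1 := Finset.sum_card_bipartiteAbove_eq_sum_card_bipartiteBelow (s := S) (t := B) (fun (w : P) (l : Finset P) => w ∈ l)
  unfold Finset.bipartiteAbove Finset.bipartiteBelow at h1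
  rw [h1]
  apply Finset.sum_congr rfl
  intro l _
  rw [Finset.filter_mem_eq_inter]

theorem part3 {V : Finset P} {L : Finset (Finset P)} (hLS : IsLS V L) {M : Finset P} {x : P} (hM : M ∈ L)
    (hx : x ∈ M) (h : ∀ z ∈ M.erase x, (thr L z).card = M.card) (h3 : 3 ≤ M.card) :
    V.card ≤ (M.card - 1) ^ 2 + M.card := by
  obtain ⟨k, hk⟩ : ∃ k, M.card = k + 1 := ⟨M.card - 1, by omega⟩
  have hk2 : 2 ≤ k := by omega
  have hB := card_BB hLS hM hx h
  have hdeg := deg hLS hM hx h
  rw [hk] at hB hdeg ⊢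
  rw [Nat.add_sub_cancel] at hB hdeg ⊢
  have hxV : x ∈ V := hLS.sub M hM hx
  have hlV : ∀ l ∈ BB L M x, l ⊆ V.erase x := by
    intro l hl w hw
    rw [Finset.mem_erase]
    refine ⟨?_, hLS.sub l (mem_BB.1 hl).1 hw⟩
    intro e
    rw [e] at hw
    exact not_mem_BB hLS hM hx hl hw
  have hlen : ∀ l ∈ BB L M x, l.card ≤ k + 1 := by
    intro l hl
    have h1 : ∑ w ∈ l, (((BB L M x).erase l).filter (fun l' => w ∈ l')).card ≤ k ^ 2 - 1 := by
      rw [inc_comm]
      have h2 : ∀ l' ∈ (BB L M x).erase l, (l ∩ l').card ≤ 1 := by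
        intro l' hl'
        rw [Finset.card_le_one]
        intro a ha b hb
        rw [Finset.mem_inter] at ha hb
        by_contra hab
        have h5 := hLS.uniq l (mem_BB.1 hl).1 l' (mem_BB.1 (Finset.mem_erase.1 hl').2).1 a b hab ha.1 hb.1 ha.2 hb.2
        exact (Finset.mem_erase.1 hl').1 h5.symm
      refine (Finset.sum_le_sum h2).trans ?_
      rw [Finset.sum_const, smul_eq_mul, mul_one, Finset.card_erase_of_mem hl, hB]
    have h2 : l.card * (k - 1) ≤ ∑ w ∈ l, (((BB L M x).erase l).filter (fun l' => w ∈ l')).card := by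
      rw [← smul_eq_mul, ← Finset.sum_const]
      apply Finset.sum_le_sum
      intro w hw
      have hw1 := Finset.mem_erase.1 (hlV l hl hw)
      have h4 := hdeg w hw1.2 hw1.1
      have h5 : ((BB L M x).erase l).filter (fun l' => w ∈ l') = ((BB L M x).filter (fun l' => w ∈ l')).erase l := by
        ext l'
        simp only [Finset.mem_filter, Finset.mem_erase]
        tauto
      rw [h5, Finset.card_erase_of_mem (Finset.mem_filter.2 ⟨hl, hw⟩)]
      exact Nat.sub_le_sub_right h4 1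
    have h3 := h2.trans h1
    obtain ⟨m, rfl⟩ : ∃ m, k = m + 1 := ⟨k - 1, by omega⟩
    rw [Nat.add_sub_cancel] at h3
    have h4 : (m + 1) ^ 2 - 1 = (m + 2) * m := by
      have : (m + 1) ^ 2 = (m + 2) * m + 1 := by ring
      rw [this, Nat.add_sub_cancel]
    rw [h4] at h3
    exact Nat.le_of_mul_le_mul_right h3 (by omega)
  have h1 : (V.card - 1) * k ≤ ∑ w ∈ V.erase x, ((BB L M x).filter (fun l => w ∈ l)).card := by
    rw [← Finset.card_erase_of_mem hxV, ← smul_eq_mul, ← Finset.sum_const]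
    apply Finset.sum_le_sum
    intro w hw
    exact hdeg w (Finset.mem_erase.1 hw).2 (Finset.mem_erase.1 hw).1
  rw [inc_comm] at h1
  have h2 : ∑ l ∈ BB L M x, (V.erase x ∩ l).card ≤ ∑ _l ∈ BB L M x, (k + 1) := by
    apply Finset.sum_le_sum
    intro l hl
    exact (Finset.card_le_card Finset.inter_subset_right).trans (hlen l hl)
  rw [Finset.sum_const, hB, smul_eq_mul] at h2
  have h4 : (V.card - 1) * k ≤ (k * (k + 1)) * k := by
    refine (h1.trans h2).trans (le_of_eq ?_)
    ring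
  have h5 := Nat.le_of_mul_le_mul_right h4 (by omega)
  have h6 : k * (k + 1) = k ^ 2 + k := by ring
  omega

theorem t_TC : S_TC := by
  intro P _ V L hLS x hxV M hM hx h
  refine ⟨fun l hl hxl => part1 hLS hM hx h l hl hxl, ?_, part3 hLS hM hx h, ?_⟩
  · intro S hS
    rw [← card_BB hLS hM hx h]
    apply Finset.card_le_card
    intro l hl
    unfold mis
    rw [Finset.mem_filter]
    refine ⟨(mem_BB.1 hl).1, not_mem_BB hLS hM hx hl, ?_⟩
    obtain ⟨z, hz, hzx, hzl⟩ := (mem_BB.1 hl).2.2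
    exact ⟨z, Finset.mem_inter.2 ⟨hzl, hS (Finset.mem_erase.2 ⟨hzx, hz⟩)⟩⟩
  · intro h2
    obtain ⟨z, hz, hzx⟩ := Finset.exists_mem_ne (by omega : 1 < M.card) x
    have hz' : z ∈ M.erase x := Finset.mem_erase.2 ⟨hzx, hz⟩
    have hMe : M.erase x = {z} := by
      have h3 : (M.erase x).card = 1 := by
        rw [Finset.card_erase_of_mem hx, h2]
      obtain ⟨a, ha⟩ := Finset.card_eq_one.1 h3
      rw [ha, Finset.mem_singleton] at hz'
      rw [ha, hz']
    have h3 : ((thr L z).erase M).card = 1 := by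
      rw [Finset.card_erase_of_mem (mem_thr.2 ⟨hM, hz⟩), h z hz', h2]
    obtain ⟨l0, hl0⟩ := Finset.card_eq_one.1 h3
    have h4 : l0 ∈ (thr L z).erase M := by
      rw [hl0]
      exact Finset.mem_singleton_self _
    rw [Finset.mem_erase, mem_thr] at h4
    refine ⟨l0, h4.2.1, ?_, ?_⟩
    · intro hxl
      exact h4.1 (hLS.uniq l0 h4.2.1 M hM z x hzx h4.2.2 hxl hz hx)
    · apply Finset.Subset.antisymm
      · intro w hw
        rw [Finset.mem_insert]
        by_cases hwx : w = x
        · exact Or.inl hwx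
        right
        by_cases hwz : w = z
        · rw [hwz]
          exact h4.2.2
        have hwM : w ∉ M := by
          intro hh
          have : w ∈ M.erase x := Finset.mem_erase.2 ⟨hwx, hh⟩
          rw [hMe, Finset.mem_singleton] at this
          exact hwz this
        obtain ⟨j, hj, hwj, hzj⟩ := hLS.ex w hw z (hLS.sub M hM hz) hwz
        have h5 : j ∈ (thr L z).erase M := by
          rw [Finset.mem_erase, mem_thr]
          refine ⟨?_, hj, hzj⟩
          intro e
          rw [e] at hwj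
          exact hwM hwj
        rw [hl0, Finset.mem_singleton] at h5
        rw [← h5]
        exact hwj
      · intro w hw
        rw [Finset.mem_insert] at hw
        rcases hw with rfl | hw
        · exact hxV
        · exact hLS.sub l0 h4.2.1 hw

end Pool.Agent.Q224.PLPTC
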